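import Pool.Agent.Lib.MP_5df1bf_an.Asm3
import Pool.Agent.Lib.MP_5df1bf_an.StBridge

/-!
# MP_5df1bf_an, Q2: the G-closure of an isotropic elastic phase with a rigid phase

The notions are defined in `Pool.Agent.Lib.MP_5df1bf_an.StDefs` (and `Defs`, `DefsH` for `ip`,
`cell`, `Micro`, `frac`, `H1`).
-/

namespace Pool.Agent.Results.MP_5df1bf_an.RigidClosure

open Pool.Agent.Lib.MP_5df1bf_an

/-- For all `d ≥ 2`, `0 < f < 1`, `κ, μ > 0`: a compliance tensor `S` belongs to `G^rig_f` if and only if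
`0 ≤ S ≤ P`, `P = f ((1-f) I + f Γ_m C₁)⁻¹ Γ_m`, for some finitely supported probability measure
`m` on the unit sphere, where `Γ_m = ∑ m_a Γ(n_a)`. -/
theorem result (d : ℕ) (hd : 2 ≤ d) (κ μ f : ℝ) (hκ : 0 < κ) (hμ : 0 < μ) (hf0 : 0 < f)
    (hf1 : f < 1) (S : St.Ten d) :
    St.GRigid κ μ f S ↔ St.Pos S ∧ ∃ (r : ℕ) (n : Fin r → V d) (m : Fin r → ℝ),
      St.Wts n m ∧ ∃ P : St.Ten d, St.IsP κ μ f n m P ∧ St.Le S P := by
  rw [St.gRigid_iff, rigidClosure hd hκ hμ hf0 hf1, St.pos_iff]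
  unfold CharR
  refine and_congr Iff.rfl (exists_congr fun r => exists_congr fun n => exists_congr fun m => ?_)
  constructor
  · rintro ⟨h1, h2, h3, P, h4, h5⟩
    refine ⟨⟨h1, h2, h3⟩, St.ofT P, ?_, ?_⟩
    · rw [St.isP_iff, St.toT_ofT]; exact h4
    · rw [St.le_iff, St.toT_ofT]; exact h5
  · rintro ⟨⟨h1, h2, h3⟩, P, h4, h5⟩
    exact ⟨h1, h2, h3, St.toT P, (St.isP_iff _ _ _ _ _ _).1 h4, (St.le_iff _ _).1 h5⟩

end Pool.Agent.Results.MP_5df1bf_an.RigidClosure
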